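import Mathlib
import Pool.Agent.N520.AN.Stm4

/-!
# SP/TYP: the types of the boundary points
-/

set_option autoImplicit false
set_option linter.unusedSectionVars false

open Set Filter Topology

namespace Pool.Agent.N91.SP

open Pool.Agent.N520.AN

section alt

variable {V : Type} [NormedAddCommGroup V] [NormedSpace ℝ V] [FiniteDimensional ℝ V]

theorem bd_one (A : V ≃ₗ[ℝ] V) : ∃ C : ℝ, 0 ≤ C ∧ ∀ v, ‖A v‖ ≤ C * ‖v‖ :=
  ⟨‖LinearMap.toContinuousLinearMap (A : V →ₗ[ℝ] V)‖, norm_nonneg _, fun v =>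
    (LinearMap.toContinuousLinearMap (A : V →ₗ[ℝ] V)).le_opNorm v⟩

/-- a sequence of automorphisms is bounded or has a divergent subsequence -/
theorem bd_or_div (a : ℕ → V ≃ₗ[ℝ] V) :
    (∃ C : ℝ, 0 ≤ C ∧ ∀ j v, ‖a j v‖ ≤ C * ‖v‖) ∨ ∃ φ : ℕ → ℕ, StrictMono φ ∧ Div (a ∘ φ) := by
  by_cases h : ∀ n : ℕ, ∃ᶠ k in atTop, ∃ v : V, ‖v‖ ≤ 1 ∧ (n : ℝ) ≤ ‖a k v‖
  · right
    obtain ⟨φ, hφ, hP⟩ := extraction_forall_of_frequently h
    choose v hv using hP
    refine ⟨φ, hφ, v, fun j => (hv j).1, ?_⟩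
    exact tendsto_atTop_mono (fun j => (hv j).2) tendsto_natCast_atTop_atTop
  · left
    push Not at h
    obtain ⟨n, hn⟩ := h
    rw [Filter.eventually_atTop] at hn
    obtain ⟨K, hK⟩ := hn
    choose C hC0 hC using fun j => bd_one (a j)
    refine ⟨n + ∑ k ∈ Finset.range K, C k, by
      have := Finset.sum_nonneg (s := Finset.range K) (fun k _ => hC0 k); positivity, ?_⟩
    intro j v
    have hs : 0 ≤ ∑ k ∈ Finset.range K, C k := Finset.sum_nonneg (fun k _ => hC0 k)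
    by_cases hj : j < K
    · have h1 : C j ≤ ∑ k ∈ Finset.range K, C k :=
        Finset.single_le_sum (fun k _ => hC0 k) (Finset.mem_range.2 hj)
      have h2 : (0 : ℝ) ≤ n := Nat.cast_nonneg n
      exact (hC j v).trans (mul_le_mul_of_nonneg_right (by linarith) (norm_nonneg v))
    · have h1 : ∀ u : V, ‖u‖ ≤ 1 → ‖a j u‖ < n := fun u hu => hK j (by omega) u hu
      have h3 : ‖a j v‖ ≤ n * ‖v‖ := by
        rcases eq_or_ne v 0 with rfl | hv
        · simp
        · have hv' : 0 < ‖v‖ := norm_pos_iff.2 hv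
          have := h1 (‖v‖⁻¹ • v) (by
            rw [norm_smul, norm_inv, norm_norm, inv_mul_cancel₀ hv'.ne'])
          rw [map_smul, norm_smul, norm_inv, norm_norm, inv_mul_lt_iff₀ hv'] at this
          linarith
      refine h3.trans (mul_le_mul_of_nonneg_right (by linarith) (norm_nonneg v))

/-- the inverses are bounded -/
def BI (a : ℕ → V ≃ₗ[ℝ] V) : Prop := ∃ C : ℝ, 0 ≤ C ∧ ∀ j v, ‖(a j).symm v‖ ≤ C * ‖v‖

theorem BI.comp {a : ℕ → V ≃ₗ[ℝ] V} (h : BI a) (φ : ℕ → ℕ) : BI (a ∘ φ) := by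
  obtain ⟨C, h0, h⟩ := h
  exact ⟨C, h0, fun j v => h (φ j) v⟩

theorem alt (h3 : S2_TWO) {Λ : Subgroup (V ≃ₗ[ℝ] V)} (hΛ : Anti 1 Λ) (a : ℕ → V ≃ₗ[ℝ] V)
    (ha : ∀ j, a j ∈ Λ) : ∃ φ : ℕ → ℕ, StrictMono φ ∧ (BI (a ∘ φ) ∨ Fl 1 (a ∘ φ)) := by
  rcases bd_or_div (inv a) with h | ⟨φ, hφ, hd⟩
  · exact ⟨id, strictMono_id, Or.inl h⟩
  · obtain ⟨ψ, hψ, -, h2⟩ := h3 V 1 Λ hΛ (inv a ∘ φ) (fun j => inv_mem' ha _) hd
    exact ⟨φ ∘ ψ, hφ.comp hψ, Or.inr h2⟩

/-- the correction lemma in a plane -/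
theorem corr (h2 : Module.finrank ℝ V = 2) {a : ℕ → V ≃ₗ[ℝ] V} (ha : Module.finrank ℝ (att a) = 1)
    {M : Submodule ℝ V} (hM : Module.finrank ℝ M = 1) (hne : M ≠ att a) {u : V} {d : ℕ → V}
    (hd : Tendsto d atTop (𝓝 u)) : ∃ c : ℕ → V, Tendsto c atTop (𝓝 0) ∧
      ∀ᶠ j in atTop, d j - a j (c j) ∈ M := by
  -- a generator of the attracting line
  obtain ⟨e, he0, hspan⟩ := finrank_eq_one_iff'.1 ha
  have hes : ∀ w ∈ att a, ∃ t : ℝ, t • (e : V) = w := fun w hw => by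
    obtain ⟨t, ht⟩ := hspan ⟨w, hw⟩
    exact ⟨t, by simpa using congrArg Subtype.val ht⟩
  have heM : (e : V) ∉ M := by
    intro he
    apply hne
    have hle : att a ≤ M := by
      intro w hw
      obtain ⟨t, rfl⟩ := hes w hw
      exact M.smul_mem t he
    exact (Submodule.eq_of_le_of_finrank_eq hle (by rw [ha, hM])).symm
  -- the functional
  have hlt : M < ⊤ := by
    rw [lt_top_iff_ne_top]
    rintro rfl
    rw [finrank_top, h2] at hM
    omega
  obtain ⟨φ, hφ0, hφ⟩ := Submodule.exists_le_ker_of_lt_top M hlt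
  have hker : Module.finrank ℝ (LinearMap.ker φ) = 1 := by
    have h := φ.finrank_range_add_finrank_ker
    rw [h2] at h
    have hr : Module.finrank ℝ (LinearMap.range φ) = 1 := by
      rw [LinearMap.range_eq_top.2 (LinearMap.surjective hφ0), finrank_top]
      simp
    omega
  have hMk : M = LinearMap.ker φ := Submodule.eq_of_le_of_finrank_eq hφ (by rw [hM, hker])
  have hφe : φ (e : V) ≠ 0 := by
    intro h
    apply heM
    rw [hMk]
    exact h
  obtain ⟨c, hc, hac⟩ := e.2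
  have hφc : Continuous φ := φ.continuous_of_finiteDimensional
  have h1 : Tendsto (fun j => φ (a j (c j))) atTop (𝓝 (φ (e : V))) := (hφc.tendsto _).comp hac
  have h3 : Tendsto (fun j => φ (d j)) atTop (𝓝 (φ u)) := (hφc.tendsto _).comp hd
  have h4 : Tendsto (fun j => φ (d j) / φ (a j (c j))) atTop (𝓝 (φ u / φ (e : V))) := h3.div h1 hφe
  refine ⟨fun j => (φ (d j) / φ (a j (c j))) • c j, by simpa using h4.smul hc, ?_⟩
  filter_upwards [h1.eventually_ne hφe] with j hj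
  rw [hMk, LinearMap.mem_ker, map_smul, map_sub, map_smul, smul_eq_mul, div_mul_cancel₀ _ hj,
    sub_self]

end alt

section main

variable {E : Type} [NormedAddCommGroup E] [NormedSpace ℝ E] [FiniteDimensional ℝ E]

theorem proj_bd {V₁ V₂ : Submodule ℝ E} (hV : IsCompl V₁ V₂) :
    ∃ C : ℝ, 0 ≤ C ∧ ∀ v, ‖V₁.projectionOnto V₂ hV v‖ ≤ C * ‖v‖ :=
  ⟨‖LinearMap.toContinuousLinearMap (V₁.projectionOnto V₂ hV)‖,
    ContinuousLinearMap.opNorm_nonneg _, fun v =>
    (LinearMap.toContinuousLinearMap (V₁.projectionOnto V₂ hV)).le_opNorm v⟩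

theorem proj_add {V₁ V₂ : Submodule ℝ E} (hV : IsCompl V₁ V₂) (v : E) :
    (V₁.projectionOnto V₂ hV v : E) + (V₂.projectionOnto V₁ hV.symm v : E) = v := by
  have := Submodule.projection_add_projection_eq_self hV v
  rwa [Submodule.projection_apply, Submodule.projection_apply] at this

theorem finrank_map_sub {V₁ : Submodule ℝ E} (K : Submodule ℝ V₁) :
    Module.finrank ℝ (K.map V₁.subtype) = Module.finrank ℝ K :=
  LinearEquiv.finrank_eq (Submodule.equivSubtypeMap V₁ K).symm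

variable {V₁ V₂ : Submodule ℝ E} (hV : IsCompl V₁ V₂) (Ω : Set E) (p : E) (g : ℕ → E ≃ₗ[ℝ] E)
  (r : ℝ) (hr : 0 < r) (a : ℕ → V₁ ≃ₗ[ℝ] V₁) (b : ℕ → V₂ ≃ₗ[ℝ] V₂)
  (ha : ∀ j, ∀ v : V₁, g j (v : E) = (a j v : E)) (hb : ∀ j, ∀ v : V₂, g j (v : E) = (b j v : E))
  (hout : ∀ (φ : ℕ → ℕ) (w : ℕ → E) (v : E), StrictMono φ → (∀ j, ‖w j‖ ≤ r) →
    Tendsto (fun j => g (φ j) (w j)) atTop (𝓝 v) → p + v ∉ Ω)

include hout in
/-- the condition for sequences which are eventually small -/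
theorem out' (w : ℕ → E) (v : E) (hw : ∀ᶠ j in atTop, ‖w j‖ ≤ r)
    (h : Tendsto (fun j => g j (w j)) atTop (𝓝 v)) : p + v ∉ Ω := by
  obtain ⟨J, hJ⟩ := Filter.eventually_atTop.1 hw
  refine hout (fun j => j + J) (fun j => w (j + J)) v (fun i j hij => by simpa using hij)
    (fun j => hJ _ (by omega)) ?_
  exact h.comp (tendsto_add_atTop_nat J)

include ha hb hout hr hV in
/-- one flat direction and one bounded direction -/
theorem case2 (h1 : Module.finrank ℝ V₁ = 2) (h2 : Module.finrank ℝ V₂ = 2)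
    (hfa : Fl 1 a) (hB : BI b) :
    ∃ N : Submodule ℝ E, Module.finrank ℝ N + 1 = Module.finrank ℝ E ∧
    ∃ ε : ℝ, 0 < ε ∧ ∀ v ∈ N, ‖v‖ < ε → p + v ∉ Ω := by
  obtain ⟨C, hC0, hC⟩ := hB
  obtain ⟨C', hC'0, hC'⟩ := proj_bd hV.symm
  refine ⟨(att a).map V₁.subtype ⊔ V₂, ?_, r / 2 / (C * C' + 1), by positivity, ?_⟩
  · have e1 := Submodule.finrank_sup_add_finrank_inf_eq ((att a).map V₁.subtype) V₂
    have e2 : (att a).map V₁.subtype ⊓ V₂ = ⊥ := by
      rw [eq_bot_iff, ← hV.inf_eq_bot]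
      exact inf_le_inf_right _ (Submodule.map_subtype_le _ _)
    rw [e2, finrank_bot, finrank_map_sub, hfa.1, h2] at e1
    have e3 := Submodule.finrank_add_eq_of_isCompl hV
    rw [h1, h2] at e3
    omega
  · intro v hv hvε
    obtain ⟨k, hk, v2, hv2, rfl⟩ := Submodule.mem_sup.1 hv
    obtain ⟨u, hu, rfl⟩ := Submodule.mem_map.1 hk
    obtain ⟨c, hc, hac⟩ := hu
    have hp2 : V₂.projectionOnto V₁ hV.symm (V₁.subtype u + v2) = ⟨v2, hv2⟩ := by
      rw [map_add, Submodule.subtype_apply, Submodule.projectionOnto_apply_right, zero_add]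
      exact Submodule.projectionOnto_apply_left hV.symm ⟨v2, hv2⟩
    have hbd : ∀ j, ‖(b j).symm ⟨v2, hv2⟩‖ ≤ r / 2 := by
      intro j
      have e1 := hC j ⟨v2, hv2⟩
      have e2 := hC' (V₁.subtype u + v2)
      rw [hp2] at e2
      have e3 : C * ‖(⟨v2, hv2⟩ : V₂)‖ ≤ C * (C' * ‖V₁.subtype u + v2‖) :=
        mul_le_mul_of_nonneg_left e2 hC0
      have e4 : (C * C' + 1) * ‖V₁.subtype u + v2‖ < r / 2 := by
        rwa [lt_div_iff₀' (by positivity)] at hvε
      have e5 : 0 ≤ ‖V₁.subtype u + v2‖ := norm_nonneg _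
      nlinarith
    refine out' Ω p g r hout (fun j => (c j : E) + ((b j).symm ⟨v2, hv2⟩ : V₂)) _ ?_ ?_
    · have h0 : Tendsto (fun j => ‖c j‖) atTop (𝓝 0) := by simpa using hc.norm
      filter_upwards [h0.eventually (gt_mem_nhds (by linarith : (0 : ℝ) < r / 2))] with j hj
      refine (norm_add_le _ _).trans ?_
      have e1 : ‖(c j : E)‖ = ‖c j‖ := rfl
      have e2 : ‖(((b j).symm ⟨v2, hv2⟩ : V₂) : E)‖ = ‖(b j).symm ⟨v2, hv2⟩‖ := rfl
      rw [e1, e2]
      have := hbd j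
      linarith
    · have e : ∀ j, g j ((c j : E) + ((b j).symm ⟨v2, hv2⟩ : V₂)) = (a j (c j) : E) + v2 := by
        intro j
        rw [map_add, ha, hb, LinearEquiv.apply_symm_apply]
      simp only [e]
      refine Tendsto.add ?_ tendsto_const_nhds
      exact (continuous_subtype_val.tendsto u).comp hac

include ha hb hout hr hV in
/-- the main alternative, when the behaviour is homogeneous -/
theorem core (h1 : Module.finrank ℝ V₁ = 2) (h2 : Module.finrank ℝ V₂ = 2)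
    (x : ℕ → E) (hx : Tendsto x atTop (𝓝 p)) (hin : ∀ j w, ‖w‖ ≤ r → x j + g j w ∈ Ω)
    (hA : BI a ∨ Fl 1 a) (hB : BI b ∨ Fl 1 b) :
    (∃ N : Submodule ℝ E, Module.finrank ℝ N + 1 = Module.finrank ℝ E ∧
    ∃ ε : ℝ, 0 < ε ∧ ∀ v ∈ N, ‖v‖ < ε → p + v ∉ Ω) ∨
    ∃ K₁ K₂ : Submodule ℝ E, TyI Ω V₁ V₂ p K₁ K₂ := by
  have hc1 : Continuous (V₁.projectionOnto V₂ hV) :=
    (V₁.projectionOnto V₂ hV).continuous_of_finiteDimensional
  have hc2 : Continuous (V₂.projectionOnto V₁ hV.symm) :=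
    (V₂.projectionOnto V₁ hV.symm).continuous_of_finiteDimensional
  rcases hA with hA | hA <;> rcases hB with hB | hB
  · exfalso
    obtain ⟨C, hC0, hC⟩ := hA
    obtain ⟨D, hD0, hD⟩ := hB
    set y : ℕ → E := fun j => p - x j with hy
    have hy0 : Tendsto y atTop (𝓝 0) := by
      have := (tendsto_const_nhds (x := p)).sub hx
      simpa [hy] using this
    set u : ℕ → V₁ := fun j => V₁.projectionOnto V₂ hV (y j) with hu
    set w : ℕ → V₂ := fun j => V₂.projectionOnto V₁ hV.symm (y j) with hw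
    have hu0 : Tendsto u atTop (𝓝 0) := by
      have h := (hc1.tendsto 0).comp hy0
      rw [map_zero] at h
      exact h
    have hw0 : Tendsto w atTop (𝓝 0) := by
      have h := (hc2.tendsto 0).comp hy0
      rw [map_zero] at h
      exact h
    have hs : Tendsto (fun j => C * ‖u j‖ + D * ‖w j‖) atTop (𝓝 0) := by
      simpa using (hu0.norm.const_mul C).add (hw0.norm.const_mul D)
    obtain ⟨j, hj⟩ := (hs.eventually (gt_mem_nhds hr)).exists
    have hz : ‖(((a j).symm (u j) : V₁) : E) + (((b j).symm (w j) : V₂) : E)‖ ≤ r := by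
      refine (norm_add_le _ _).trans ?_
      have e1 := hC j (u j)
      have e2 := hD j (w j)
      have e3 : ‖(((a j).symm (u j) : V₁) : E)‖ = ‖(a j).symm (u j)‖ := rfl
      have e4 : ‖(((b j).symm (w j) : V₂) : E)‖ = ‖(b j).symm (w j)‖ := rfl
      rw [e3, e4]
      linarith
    have hmem := hin j _ hz
    rw [map_add, ha, hb, LinearEquiv.apply_symm_apply, LinearEquiv.apply_symm_apply,
      proj_add hV (y j)] at hmem
    have hno := hout id (fun _ => 0) 0 strictMono_id (fun _ => by simpa using hr.le) (by simp)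
    apply hno
    have : x j + y j = p + 0 := by simp [hy]
    rwa [this] at hmem
  · left
    exact case2 hV.symm Ω p g r hr b a hb ha hout h2 h1 hB hA
  · left
    exact case2 hV Ω p g r hr a b ha hb hout h1 h2 hA hB
  · right
    refine ⟨(att a).map V₁.subtype, (att b).map V₂.subtype, Submodule.map_subtype_le _ _,
      Submodule.map_subtype_le _ _, by rw [finrank_map_sub, hA.1], by rw [finrank_map_sub, hB.1],
      ?_, ?_⟩
    · intro v hv
      obtain ⟨k, hk, k', hk', rfl⟩ := Submodule.mem_sup.1 hv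
      obtain ⟨u, ⟨c, hc, hac⟩, rfl⟩ := Submodule.mem_map.1 hk
      obtain ⟨u', ⟨c', hc', hac'⟩, rfl⟩ := Submodule.mem_map.1 hk'
      have hs : Tendsto (fun j => (c j : E) + (c' j : E)) atTop (𝓝 0) := by
        have e1 : Tendsto (fun j => (c j : E)) atTop (𝓝 0) :=
          (continuous_subtype_val.tendsto (0 : V₁)).comp hc
        have e2 : Tendsto (fun j => (c' j : E)) atTop (𝓝 0) :=
          (continuous_subtype_val.tendsto (0 : V₂)).comp hc'
        simpa using e1.add e2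
      refine out' Ω p g r hout (fun j => (c j : E) + (c' j : E)) _ ?_ ?_
      · have h0 : Tendsto (fun j => ‖(c j : E) + (c' j : E)‖) atTop (𝓝 0) := by
          simpa using hs.norm
        filter_upwards [h0.eventually (gt_mem_nhds hr)] with j hj
        exact hj.le
      · have e : ∀ j, g j ((c j : E) + (c' j : E)) = (a j (c j) : E) + (b j (c' j) : E) := by
          intro j
          rw [map_add, ha, hb]
        simp only [e]
        exact ((continuous_subtype_val.tendsto u).comp hac).add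
          ((continuous_subtype_val.tendsto u').comp hac')
    · intro M₁ hM₁ M₂ hM₂ hf₁ hf₂ hn₁ hn₂ v _
      -- the lines in the planes
      have hm₁ : (M₁.comap V₁.subtype).map V₁.subtype = M₁ := by
        rw [Submodule.map_comap_subtype]; exact inf_eq_right.2 hM₁
      have hm₂ : (M₂.comap V₂.subtype).map V₂.subtype = M₂ := by
        rw [Submodule.map_comap_subtype]; exact inf_eq_right.2 hM₂
      have hf₁' : Module.finrank ℝ (M₁.comap V₁.subtype) = 1 := by
        rw [← finrank_map_sub, hm₁, hf₁]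
      have hf₂' : Module.finrank ℝ (M₂.comap V₂.subtype) = 1 := by
        rw [← finrank_map_sub, hm₂, hf₂]
      have hn₁' : M₁.comap V₁.subtype ≠ att a := fun h => hn₁ (by rw [← h, hm₁])
      have hn₂' : M₂.comap V₂.subtype ≠ att b := fun h => hn₂ (by rw [← h, hm₂])
      have hy : Tendsto (fun j => p + v - x j) atTop (𝓝 v) := by
        have := (tendsto_const_nhds (x := p + v)).sub hx
        simpa using this
      obtain ⟨c, hc, hcM⟩ := corr h1 hA.1 hf₁' hn₁' ((hc1.tendsto v).comp hy)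
      obtain ⟨c', hc', hcM'⟩ := corr h2 hB.1 hf₂' hn₂' ((hc2.tendsto v).comp hy)
      have hs : Tendsto (fun j => (c j : E) + (c' j : E)) atTop (𝓝 0) := by
        have e1 : Tendsto (fun j => (c j : E)) atTop (𝓝 0) :=
          (continuous_subtype_val.tendsto (0 : V₁)).comp hc
        have e2 : Tendsto (fun j => (c' j : E)) atTop (𝓝 0) :=
          (continuous_subtype_val.tendsto (0 : V₂)).comp hc'
        simpa using e1.add e2
      have h0 : Tendsto (fun j => ‖(c j : E) + (c' j : E)‖) atTop (𝓝 0) := by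
        simpa using hs.norm
      obtain ⟨j, hj, hj1, hj2⟩ := ((h0.eventually (gt_mem_nhds hr)).and (hcM.and hcM')).exists
      have hmem := hin j _ hj.le
      rw [map_add, ha, hb] at hmem
      have hd1 := Submodule.mem_comap.1 hj1
      have hd2 := Submodule.mem_comap.1 hj2
      simp only [Function.comp_apply, Submodule.subtype_apply, Submodule.coe_sub] at hd1 hd2
      refine ⟨-(((V₁.projectionOnto V₂ hV (p + v - x j) : E) - (a j (c j) : E)) +
        ((V₂.projectionOnto V₁ hV.symm (p + v - x j) : E) - (b j (c' j) : E))), ?_, ?_⟩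
      · exact Submodule.neg_mem _ (Submodule.add_mem_sup hd1 hd2)
      · have e := proj_add hV (p + v - x j)
        have e' : p + v + -(((V₁.projectionOnto V₂ hV (p + v - x j) : E) - (a j (c j) : E)) +
            ((V₂.projectionOnto V₁ hV.symm (p + v - x j) : E) - (b j (c' j) : E))) =
            x j + ((a j (c j) : E) + (b j (c' j) : E)) := by
          have e2 : (V₁.projectionOnto V₂ hV (p + v - x j) : E) = p + v - x j -
            (V₂.projectionOnto V₁ hV.symm (p + v - x j) : E) := by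
            rw [eq_sub_iff_add_eq]; exact e
          rw [e2]; abel
        rw [e']
        exact hmem

end main

/-- SP/TYP -/
theorem t_typ (h1 : Pool.Agent.N520.AN.S4_PL) (h2 : Pool.Agent.N520.AN.S2_SUB)
    (h3 : Pool.Agent.N520.AN.S2_TWO) : Pool.Agent.N520.AN.S4_TYP := by
  intro E _ _ _ V₁ V₂ hV hf1 hf2 Λ₁ Λ₂ hd1 hd2 Ω p x g r hr hx hg1 hg2 hin hout
  have hA1 : Anti 1 Λ₁ := h1 V₁ hf1 Λ₁ hd1
  have hA2 : Anti 1 Λ₂ := h1 V₂ hf2 Λ₂ hd2
  choose a haΛ ha using hg1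
  choose b hbΛ hb using hg2
  obtain ⟨φ, hφ, hφa⟩ := alt h3 hA1 a haΛ
  obtain ⟨ψ, hψ, hψb⟩ := alt h3 hA2 (b ∘ φ) (fun j => hbΛ _)
  have hA : BI (a ∘ (φ ∘ ψ)) ∨ Fl 1 (a ∘ (φ ∘ ψ)) := by
    rcases hφa with h | h
    · exact Or.inl (h.comp ψ)
    · right
      have := (h2 V₁ 1 Λ₁ hA1 (a ∘ φ) (fun j => haΛ _)).2.2 h ψ hψ
      refine ⟨?_, ?_⟩
      · have e : att (a ∘ (φ ∘ ψ)) = att (a ∘ φ) := this.1
        rw [e]; exact h.1
      · have e : big (a ∘ (φ ∘ ψ)) = big (a ∘ φ) := this.2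
        rw [e]; exact h.2
  have hB : BI (b ∘ (φ ∘ ψ)) ∨ Fl 1 (b ∘ (φ ∘ ψ)) := hψb
  have hm : StrictMono (φ ∘ ψ) := hφ.comp hψ
  exact core hV Ω p (g ∘ (φ ∘ ψ)) r hr (a ∘ (φ ∘ ψ)) (b ∘ (φ ∘ ψ)) (fun j v => ha _ v)
    (fun j v => hb _ v)
    (fun χ w v hχ hw hv => hout (φ ∘ ψ ∘ χ) w v (hm.comp hχ) hw hv)
    hf1 hf2 (x ∘ (φ ∘ ψ)) (hx.comp hm.tendsto_atTop) (fun j w hw => hin _ w hw) hA hB

end Pool.Agent.N91.SP
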